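import Pool.Agent.H6.SoF

open Pointwise

/-- A Bergman group with a slowly oscillating function that is not constant at infinity. -/
theorem Pool.Agent.Results.MP_5c36f9_al.Q1.result :
    ∃ (G : Type) (_ : Group G) (f : G → ℝ),
      (¬ ∃ X : ℕ → Set G, StrictMono X ∧ (⋃ n, X n) = Set.univ ∧ (∀ n, (X n)⁻¹ = X n) ∧
        ∀ n, X n * X n ⊆ X (n + 1)) ∧
      (∀ F : Set G, F.Finite → ∀ ε : ℝ, 0 < ε → ∃ B : Set G, B.Finite ∧ ∀ x ∉ B,
        Metric.diam (f '' ({x} ∪ (fun g => g * x) '' F)) < ε) ∧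
      ∀ c : ℝ, ∃ O ∈ nhds c, ((f ⁻¹' O)ᶜ).Infinite := by
  obtain ⟨G, _, f, h1, h2, h3, h4⟩ := Pool.Agent.H6.So.example_group
  refine ⟨G, inferInstance, f, ?_, Pool.Agent.H6.So.so_of_C0 f h2,
    Pool.Agent.H6.So.not_const f h3 h4⟩
  rintro ⟨X, hX, hU, hi, hm⟩
  obtain ⟨n, hn⟩ := Pool.Agent.H6.So.strong h1 X hX.monotone
    (fun n a ha => by rw [← hi n]; simpa using ha)
    (fun n a ha b hb => hm n (Set.mul_mem_mul ha hb))
    (fun g => Set.mem_iUnion.mp (hU ▸ Set.mem_univ g))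
  exact (hX (Nat.lt_succ_self n)).2 fun g _ => hn g
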